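import Mathlib

/-!
PROJECT ALLQ (MP_274814_nt), block E (one torus with complex multiplication), definitions.

`V = ν → ℂ`, `L` a lattice in `V`, stable under the diagonal matrix `ζ` of `q`-th roots of unity;
`H(z, w) = ∑ η_u z_u conj w_u`, `η` real. Theta functions `f` with
`f(z + l) = exp(π H(z, l) + π/2 H(l, l)) f(z)` for `l` in `k L`, for some `k ≥ 1`; `AlgT`: those whose
normalised values `exp(-π/2 H(t, t)) f(t)` at the points `t` of `ℚ L` are algebraic.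
-/

set_option autoImplicit false

namespace Pool.Agent.Helper3.SE

open Complex
open scoped Real

noncomputable section

variable {ν : Type} [Fintype ν]

/-- the hermitian form -/
def hm (η : ν → ℝ) (z w : ν → ℂ) : ℂ := ∑ u, (η u : ℂ) * z u * (starRingEnd ℂ) (w u)

/-- action of the diagonal matrix `ζ` -/
def za (ζ : ν → ℂ) (z : ν → ℂ) : ν → ℂ := fun u => ζ u * z u

/-- the lattice and the action of the `q`-th roots of unity -/
structure CM (L : AddSubgroup (ν → ℂ)) (ζ : ν → ℂ) (q : ℕ) : Prop where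
  cc : ∃ R : ℝ, ∀ z : ν → ℂ, ∃ l ∈ L, ‖z - l‖ ≤ R
  mul : ∀ l ∈ L, za ζ l ∈ L
  pos : 1 ≤ q
  pow : ∀ u, ζ u ^ q = 1
  inj : Function.Injective ζ
  ne : ∀ u, ζ u ≠ 1
  ne2 : ∀ u v, ζ u * ζ v ≠ 1

/-- `η > 0`, the imaginary part of `H` is rational on `L`, with bounded denominator -/
structure Pz (L : AddSubgroup (ν → ℂ)) (η : ν → ℝ) : Prop where
  pos : ∀ u, 0 < η u
  int : ∃ d : ℕ, 1 ≤ d ∧ ∀ l ∈ L, ∀ l' ∈ L, ∃ m : ℤ, (d : ℝ) * (hm η l l').im = m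

/-- rational points -/
def RQ (L : AddSubgroup (ν → ℂ)) (t : ν → ℂ) : Prop := ∃ n : ℕ, 1 ≤ n ∧ (n : ℂ) • t ∈ L

/-- theta functions for `k L` -/
structure AT (L : AddSubgroup (ν → ℂ)) (η : ν → ℝ) (k : ℕ) (f : (ν → ℂ) → ℂ) : Prop where
  diff : Differentiable ℂ f
  per : ∀ l ∈ L, ∀ z, f (z + (k : ℂ) • l) =
    cexp (π * k * hm η z l + π / 2 * (k : ℂ) ^ 2 * hm η l l) * f z

/-- normalised value -/
def nv (η : ν → ℝ) (f : (ν → ℂ) → ℂ) (t : ν → ℂ) : ℂ := cexp (-(π / 2 * hm η t t)) * f t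

/-- theta functions with algebraic values at the rational points -/
structure AlgT (L : AddSubgroup (ν → ℂ)) (η : ν → ℝ) (f : (ν → ℂ) → ℂ) : Prop where
  at_ : ∃ k : ℕ, 1 ≤ k ∧ AT L η k f
  alg : ∀ t, RQ L t → IsAlgebraic ℚ (nv η f t)

/-- magnetic translation -/
def Ut (η : ν → ℝ) (t : ν → ℂ) (f : (ν → ℂ) → ℂ) : (ν → ℂ) → ℂ :=
  fun z => cexp (-(π * hm η z t) - π / 2 * hm η t t) * f (z + t)

/-- `A(0) D_e B(0) - B(0) D_e A(0)` -/
def Wr (A B : (ν → ℂ) → ℂ) (e : ν → ℂ) : ℂ := A 0 * fderiv ℂ B 0 e - B 0 * fderiv ℂ A 0 e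

variable [DecidableEq ν]

/-- partial derivative in the coordinate `z_u`, divided by `ρ_u` -/
def Ds (ρ : ν → ℂ) (u : ν) (f : (ν → ℂ) → ℂ) : (ν → ℂ) → ℂ :=
  fun z => fderiv ℂ f z (Pi.single u (ρ u)⁻¹)

/-- `ρ` are scales for `η`: the derivatives at `0` of all functions in `AlgT` are algebraic multiples -/
structure Sc (L : AddSubgroup (ν → ℂ)) (η : ν → ℝ) (ρ : ν → ℂ) : Prop where
  ne : ∀ u, ρ u ≠ 0
  alg : ∀ f, AlgT L η f → ∀ u, IsAlgebraic ℚ (Ds ρ u f 0)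

/-- iterated derivatives -/
def Dl (ρ : ν → ℂ) : List ν → ((ν → ℂ) → ℂ) → ((ν → ℂ) → ℂ)
  | [], f => f
  | u :: us, f => Dl ρ us (Ds ρ u f)

end

end Pool.Agent.Helper3.SE
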