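import Pool.Agent.Helper3.SE.Df

/-!
PROJECT ALLQ, block E: elementary facts.
-/

set_option autoImplicit false

namespace Pool.Agent.Helper3.SE

open Complex
open scoped Real

noncomputable section

variable {ν : Type} [Fintype ν]

theorem hm_add_left (η : ν → ℝ) (z z' w : ν → ℂ) : hm η (z + z') w = hm η z w + hm η z' w := by
  simp only [hm, Pi.add_apply, ← Finset.sum_add_distrib]
  exact Finset.sum_congr rfl fun u _ => by ring

theorem hm_add_right (η : ν → ℝ) (z w w' : ν → ℂ) : hm η z (w + w') = hm η z w + hm η z w' := by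
  simp only [hm, Pi.add_apply, map_add, ← Finset.sum_add_distrib]
  exact Finset.sum_congr rfl fun u _ => by ring

theorem hm_smul_left (η : ν → ℝ) (c : ℂ) (z w : ν → ℂ) : hm η (c • z) w = c * hm η z w := by
  simp only [hm, Pi.smul_apply, smul_eq_mul, Finset.mul_sum]
  exact Finset.sum_congr rfl fun u _ => by ring

theorem hm_smul_right (η : ν → ℝ) (c : ℂ) (z w : ν → ℂ) :
    hm η z (c • w) = (starRingEnd ℂ) c * hm η z w := by
  simp only [hm, Pi.smul_apply, smul_eq_mul, map_mul, Finset.mul_sum]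
  exact Finset.sum_congr rfl fun u _ => by ring

theorem hm_zero_left (η : ν → ℝ) (w : ν → ℂ) : hm η 0 w = 0 := by simp [hm]

theorem hm_zero_right (η : ν → ℝ) (z : ν → ℂ) : hm η z 0 = 0 := by simp [hm]

theorem hm_neg_left (η : ν → ℝ) (z w : ν → ℂ) : hm η (-z) w = -hm η z w := by simp [hm]

theorem hm_neg_right (η : ν → ℝ) (z w : ν → ℂ) : hm η z (-w) = -hm η z w := by simp [hm]

theorem hm_conj (η : ν → ℝ) (z w : ν → ℂ) : (starRingEnd ℂ) (hm η z w) = hm η w z := by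
  simp only [hm, map_sum, map_mul, Complex.conj_ofReal, Complex.conj_conj]
  exact Finset.sum_congr rfl fun u _ => by ring

/-- `H(z, z)` is the real number `∑ η_u |z_u|^2` -/
theorem hm_self (η : ν → ℝ) (z : ν → ℂ) :
    hm η z z = ((∑ u, η u * ‖z u‖ ^ 2 : ℝ) : ℂ) := by
  simp only [hm]
  push_cast
  refine Finset.sum_congr rfl fun u _ => ?_
  rw [mul_assoc, Complex.mul_conj, Complex.normSq_eq_norm_sq]
  push_cast
  ring

theorem hm_eta_add (η η' : ν → ℝ) (z w : ν → ℂ) : hm (η + η') z w = hm η z w + hm η' z w := by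
  simp only [hm, Pi.add_apply, ← Finset.sum_add_distrib]
  refine Finset.sum_congr rfl fun u _ => ?_
  push_cast
  ring

theorem norm_of_pow {ζ : ν → ℂ} {q : ℕ} (hq : 1 ≤ q) (h : ∀ u, ζ u ^ q = 1) (u : ν) :
    ‖ζ u‖ = 1 := Complex.norm_eq_one_of_pow_eq_one (h u) (by omega)

theorem hm_za {ζ : ν → ℂ} {q : ℕ} (hq : 1 ≤ q) (h : ∀ u, ζ u ^ q = 1) (η : ν → ℝ)
    (z w : ν → ℂ) : hm η (za ζ z) (za ζ w) = hm η z w := by
  simp only [hm, za, map_mul]
  refine Finset.sum_congr rfl fun u _ => ?_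
  have h1 : ζ u * (starRingEnd ℂ) (ζ u) = 1 := by
    rw [Complex.mul_conj, Complex.normSq_eq_norm_sq, norm_of_pow hq h]
    simp
  linear_combination ((η u : ℂ) * z u * (starRingEnd ℂ) (w u)) * h1

variable {L : AddSubgroup (ν → ℂ)}

omit [Fintype ν] in
theorem RQ.of_mem {t : ν → ℂ} (h : t ∈ L) : RQ L t := ⟨1, le_rfl, by simpa using h⟩

omit [Fintype ν] in
theorem RQ.zero : RQ L 0 := RQ.of_mem L.zero_mem

omit [Fintype ν] in
theorem RQ.add {t t' : ν → ℂ} (h : RQ L t) (h' : RQ L t') : RQ L (t + t') := by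
  obtain ⟨n, hn, h1⟩ := h
  obtain ⟨m, hm, h2⟩ := h'
  refine ⟨n * m, Nat.mul_pos hn hm, ?_⟩
  have h3 := L.add_mem (L.nsmul_mem h1 m) (L.nsmul_mem h2 n)
  have h4 : (m • ((n : ℂ) • t) + n • ((m : ℂ) • t') : ν → ℂ) = ((n * m : ℕ) : ℂ) • (t + t') := by
    funext u
    simp only [Pi.add_apply, Pi.smul_apply, nsmul_eq_mul, smul_eq_mul, Pi.mul_apply,
      Pi.natCast_apply]
    push_cast
    ring
  rwa [h4] at h3

omit [Fintype ν] in
theorem RQ.neg {t : ν → ℂ} (h : RQ L t) : RQ L (-t) := by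
  obtain ⟨n, hn, h1⟩ := h
  exact ⟨n, hn, by simpa using L.neg_mem h1⟩

omit [Fintype ν] in
theorem RQ.sub {t t' : ν → ℂ} (h : RQ L t) (h' : RQ L t') : RQ L (t - t') := by
  rw [sub_eq_add_neg]
  exact h.add h'.neg

omit [Fintype ν] in
theorem za_smul (ζ : ν → ℂ) (c : ℂ) (t : ν → ℂ) : za ζ (c • t) = c • za ζ t := by
  funext u
  simp only [za, Pi.smul_apply, smul_eq_mul]
  ring

omit [Fintype ν] in
theorem za_add (ζ : ν → ℂ) (t t' : ν → ℂ) : za ζ (t + t') = za ζ t + za ζ t' := by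
  funext u
  simp only [za, Pi.add_apply]
  ring

omit [Fintype ν] in
theorem RQ_za {ζ : ν → ℂ} (h : ∀ l ∈ L, za ζ l ∈ L) {t : ν → ℂ} (ht : RQ L t) :
    RQ L (za ζ t) := by
  obtain ⟨n, hn, h1⟩ := ht
  refine ⟨n, hn, ?_⟩
  have h2 := h _ h1
  rwa [za_smul] at h2

/-- the rational points are dense -/
theorem dense_RQ (h : ∃ R : ℝ, ∀ z : ν → ℂ, ∃ l ∈ L, ‖z - l‖ ≤ R) :
    Dense {t : ν → ℂ | RQ L t} := by
  obtain ⟨R, hR⟩ := h
  rw [Metric.dense_iff]
  intro x r hr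
  have hR0 : 0 ≤ R := by
    obtain ⟨l, _, hl⟩ := hR 0
    exact (norm_nonneg _).trans hl
  obtain ⟨n, hn⟩ := exists_nat_gt (R / r)
  have hn1 : 1 ≤ n := by
    rcases Nat.eq_zero_or_pos n with h0 | h0
    · rw [h0] at hn
      have : 0 ≤ R / r := by positivity
      simp only [Nat.cast_zero] at hn
      linarith
    · exact h0
  have hn0 : (n : ℂ) ≠ 0 := by exact_mod_cast (by omega : n ≠ 0)
  obtain ⟨l, hl, hl'⟩ := hR ((n : ℂ) • x)
  refine ⟨(n : ℂ)⁻¹ • l, ?_, n, hn1, ?_⟩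
  · rw [Metric.mem_ball, dist_eq_norm]
    have h1 : (n : ℂ)⁻¹ • l - x = (n : ℂ)⁻¹ • (l - (n : ℂ) • x) := by
      rw [smul_sub, smul_smul, inv_mul_cancel₀ hn0, one_smul]
    rw [h1, norm_smul, norm_inv, Complex.norm_natCast, norm_sub_rev]
    have hnr : (0 : ℝ) < n := by exact_mod_cast hn1
    rw [inv_mul_lt_iff₀ hnr]
    calc ‖(n : ℂ) • x - l‖ ≤ R := hl'
      _ = R / r * r := by field_simp
      _ < n * r := by nlinarith
  · rwa [smul_smul, mul_inv_cancel₀ hn0, one_smul]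

/-- `exp(π i r)` is a root of unity for rational `r` -/
theorem exp_alg (r : ℚ) : IsAlgebraic ℚ (cexp (π * I * r)) := by
  have hd : (r.den : ℂ) ≠ 0 := by exact_mod_cast r.den_nz
  have h1 : cexp (π * I * r) ^ (2 * r.den) = 1 := by
    rw [← Complex.exp_nat_mul]
    have h2 : ((2 * r.den : ℕ) : ℂ) * (π * I * r) = (r.num : ℂ) * (2 * π * I) := by
      have h3 : (r : ℂ) = r.num / r.den := by
        exact_mod_cast (Rat.num_div_den r).symm
      rw [h3]
      push_cast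
      field_simp
    rw [h2]
    exact Complex.exp_int_mul_two_pi_mul_I _
  have hpos : 0 < 2 * r.den := by have := r.pos; omega
  refine IsAlgebraic.of_pow hpos ?_
  rw [h1]
  exact isAlgebraic_one

/-- the imaginary part of `H` is rational at rational points -/
theorem im_rat {η : ν → ℝ} (hP : Pz L η) {t t' : ν → ℂ} (h : RQ L t) (h' : RQ L t') :
    ∃ r : ℚ, (hm η t t').im = r := by
  obtain ⟨n, hn, h1⟩ := h
  obtain ⟨m, hm', h2⟩ := h'
  obtain ⟨d, hd, h3⟩ := hP.int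
  obtain ⟨k, hk⟩ := h3 _ h1 _ h2
  refine ⟨(k : ℚ) / (d * n * m), ?_⟩
  rw [hm_smul_left, hm_smul_right] at hk
  have h4 : ((n : ℂ) * ((starRingEnd ℂ) (m : ℂ) * hm η t t')).im = n * m * (hm η t t').im := by
    rw [Complex.conj_natCast, ← mul_assoc, ← Nat.cast_mul, ← Complex.ofReal_natCast,
      Complex.im_ofReal_mul]
    push_cast
    ring
  rw [h4] at hk
  have hd0 : (d : ℝ) ≠ 0 := by exact_mod_cast (by omega : d ≠ 0)
  have hn0 : (n : ℝ) ≠ 0 := by exact_mod_cast (by omega : n ≠ 0)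
  have hm0 : (m : ℝ) ≠ 0 := by exact_mod_cast (by omega : m ≠ 0)
  push_cast
  field_simp
  linarith

/-- value of a magnetic translate -/
theorem nv_Ut (η : ν → ℝ) (t t' : ν → ℂ) (f : (ν → ℂ) → ℂ) :
    nv η (Ut η t f) t' = cexp (π * I * (hm η t t').im) * nv η f (t + t') := by
  unfold nv Ut
  rw [← mul_assoc, ← Complex.exp_add, ← mul_assoc, ← Complex.exp_add, add_comm t' t]
  congr 2
  have h1 : hm η t' t = (starRingEnd ℂ) (hm η t t') := (hm_conj η t t').symm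
  have h2 := Complex.sub_conj (hm η t t')
  rw [hm_add_left, hm_add_right, hm_add_right, h1]
  push_cast at h2
  linear_combination (π / 2 : ℂ) * h2

theorem Pz.add {η η' : ν → ℝ} (h : Pz L η) (h' : Pz L η') : Pz L (η + η') := by
  refine ⟨fun u => add_pos (h.pos u) (h'.pos u), ?_⟩
  obtain ⟨d, hd, h1⟩ := h.int
  obtain ⟨e, he, h2⟩ := h'.int
  refine ⟨d * e, Nat.mul_pos hd he, fun l hl l' hl' => ?_⟩
  obtain ⟨m, hm'⟩ := h1 l hl l' hl'
  obtain ⟨n, hn⟩ := h2 l hl l' hl'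
  refine ⟨e * m + d * n, ?_⟩
  rw [hm_eta_add, Complex.add_im]
  push_cast
  rw [← hm', ← hn]
  ring

end

end Pool.Agent.Helper3.SE
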