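import Pool.Agent.Helper11.SH.S3
import Pool.Agent.Helper96.SH.Sb

/-!
PROJECT ALLQ (MP_274814_nt): last step of the evaluation at a point.
-/

set_option autoImplicit false

namespace Pool.Agent.Helper3.SE

open Complex Filter Topology

noncomputable section

variable {ι : Type} [Fintype ι]

/-- functions with injective total differential contain a family with independent differentials -/
theorem exists_family {α : Type} (dY : α → ((ι → ℂ) →ₗ[ℂ] ℂ))
    (h : ∀ v, (∀ a, dY a v = 0) → v = 0) :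
    ∃ m : ι → α, ∀ v, (∀ i, dY (m i) v = 0) → v = 0 := by
  classical
  have h1 : Submodule.span ℂ (Set.range dY) = ⊤ := by
    by_contra hne
    obtain ⟨φ, hφ0, hφ⟩ := Submodule.exists_le_ker_of_lt_top _ (lt_top_iff_ne_top.2 hne)
    let e := Module.evalEquiv ℂ (ι → ℂ)
    obtain ⟨v, hv⟩ := e.surjective φ
    apply hφ0
    have h2 : v = 0 := by
      refine h v fun a => ?_
      have h3 := hφ (Submodule.subset_span (Set.mem_range_self a))
      rw [LinearMap.mem_ker, ← hv] at h3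
      simpa [e] using h3
    rw [← hv, h2, map_zero]
  obtain ⟨b, hb⟩ : ∃ b : Set (Module.Dual ℂ (ι → ℂ)), b ⊆ Set.range dY ∧
      (⊤ : Submodule ℂ (Module.Dual ℂ (ι → ℂ))) ≤ Submodule.span ℂ b ∧
      LinearIndependent ℂ ((↑) : b → Module.Dual ℂ (ι → ℂ)) := by
    obtain ⟨b, hb1, hb2, hb3⟩ := exists_linearIndependent ℂ (Set.range dY)
    exact ⟨b, hb1, by rw [hb2, h1], hb3⟩
  obtain ⟨hb1, hb2, hb3⟩ := hb
  let B : Module.Basis b ℂ (Module.Dual ℂ (ι → ℂ)) := Module.Basis.mk hb3 (by simpa using hb2)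
  have hfin : Fintype b := FiniteDimensional.fintypeBasisIndex B
  have hcard : Fintype.card b = Fintype.card ι := by
    rw [← Module.finrank_eq_card_basis B, Subspace.dual_finrank_eq, Module.finrank_pi]
  obtain ⟨σ⟩ : Nonempty (ι ≃ b) := ⟨Fintype.equivOfCardEq hcard.symm⟩
  have h4 : ∀ x : b, ∃ a, dY a = x := fun x => hb1 x.2
  choose m hm using h4
  refine ⟨fun i => m (σ i), fun v hv => ?_⟩
  refine h v fun a => ?_
  have h5 : dY a ∈ Submodule.span ℂ b := hb2 trivial
  have h6 : Submodule.span ℂ b ≤ LinearMap.ker (Module.Dual.eval ℂ (ι → ℂ) v) := by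
    rw [Submodule.span_le]
    intro x hx
    have h7 := hv (σ.symm ⟨x, hx⟩)
    beta_reduce at h7
    rw [σ.apply_symm_apply, hm] at h7
    exact h7
  exact h6 h5

/-- evaluation of `G / F0` at a point where the `F k / F0` vanish and are local coordinates -/
theorem eval_step {F0 G : (ι → ℂ) → ℂ} {F : ι → (ι → ℂ) → ℂ} (hF0 : Differentiable ℂ F0)
    (hG : Differentiable ℂ G) (hF : ∀ k, Differentiable ℂ (F k))
    (Q : MvPolynomial (Option ι) ℂ) (hQ : Q ≠ 0) (hQa : ∀ m, IsAlgebraic ℚ (Q.coeff m))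
    (hz : ∀ x, F0 x ≠ 0 → MvPolynomial.eval (fun o : Option ι => o.elim (G x / F0 x)
      (fun k => F k x / F0 x)) Q = 0) {p : ι → ℂ} (h0 : F0 p ≠ 0) (hk : ∀ k, F k p = 0)
    (hd : ∀ v, (∀ k, fderiv ℂ (F k) p v = 0) → v = 0) : IsAlgebraic ℚ (G p / F0 p) := by
  classical
  set g : (ι → ℂ) → (ι → ℂ) := fun x k => F k x / F0 x with hg
  have hA : ∀ {f : (ι → ℂ) → ℂ}, Differentiable ℂ f → AnalyticAt ℂ f p := fun hf =>
    Pool.Agent.Helper96.SH.analyticOnNhd_of_differentiableOn isOpen_univ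
      hf.differentiableOn p (Set.mem_univ p)
  have h1 : ∀ k, HasStrictFDerivAt (fun x => F k x / F0 x) ((F0 p)⁻¹ • fderiv ℂ (F k) p) p := by
    intro k
    have h2 : AnalyticAt ℂ (fun x => F k x / F0 x) p := (hA (hF k)).fun_div (hA hF0) h0
    have h3 := h2.hasStrictFDerivAt
    have h4 : fderiv ℂ (fun x => F k x / F0 x) p = (F0 p)⁻¹ • fderiv ℂ (F k) p := by
      have h5 : HasFDerivAt (fun x => (F0 x)⁻¹) ((-(F0 p ^ 2)⁻¹) • fderiv ℂ F0 p) p :=
        (hasDerivAt_inv h0).comp_hasFDerivAt p (hF0 p).hasFDerivAt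
      have h6 := ((hF k p).hasFDerivAt.fun_mul h5).fderiv
      have h7 : (fun x => F k x / F0 x) = fun x => F k x * (F0 x)⁻¹ := by
        funext x
        rw [div_eq_mul_inv]
      rw [h7, h6, hk k]
      ext v
      simp
    rwa [h4] at h3
  set g1 : (ι → ℂ) →L[ℂ] (ι → ℂ) := ContinuousLinearMap.pi fun k => (F0 p)⁻¹ • fderiv ℂ (F k) p
    with hg1
  have h2 : HasStrictFDerivAt g g1 p := hasStrictFDerivAt_pi.2 h1
  have hinj : Function.Injective g1 := by
    rw [injective_iff_map_eq_zero]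
    intro v hv
    refine hd v fun k => ?_
    have h3 := congrFun hv k
    simp only [hg1, ContinuousLinearMap.coe_pi', ContinuousLinearMap.smul_apply, smul_eq_mul,
      Pi.zero_apply] at h3
    exact (mul_eq_zero.1 h3).resolve_left (inv_ne_zero h0)
  let e : (ι → ℂ) ≃L[ℂ] (ι → ℂ) :=
    (LinearEquiv.ofInjectiveEndo (g1 : (ι → ℂ) →ₗ[ℂ] (ι → ℂ)) hinj).toContinuousLinearEquiv
  have he : (e : (ι → ℂ) →L[ℂ] (ι → ℂ)) = g1 := by
    ext v k
    rfl
  rw [← he] at h2
  have hg0 : g p = 0 := by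
    funext k
    simp [hg, hk k]
  have hφ : ContinuousAt (fun x => G x / F0 x) p :=
    (hG p).continuousAt.div (hF0 p).continuousAt h0
  refine Pool.Agent.Helper11.SH.eval_alg g e p h2 hg0 (fun x => G x / F0 x) hφ Q hQ hQa ?_
  have h6 : ∀ᶠ x in 𝓝 p, F0 x ≠ 0 := (hF0 p).continuousAt.eventually_ne h0
  filter_upwards [h6] with x hx
  exact hz x hx

end

end Pool.Agent.Helper3.SE
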